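import Pool.Agent.TH935.DG4
import Pool.Agent.TH935.GF

set_option autoImplicit false

/-! Goldbach representations of all the even multiples of the members of thin families. -/

namespace Pool.Agent.TH345.GBM

open Finset Pool.Agent.H560R3.GB Pool.Agent.TH935.GF

/-- all members of a family -/
theorem fam (h A C W U : ℕ) (ε : ℝ) (hε : 0 < ε) :
    ∃ N₀ : ℕ, ∀ N : ℕ, N₀ ≤ N → ∀ (ι : Type) [Fintype ι] (v : ι → ℤ),
      (∀ i, |v i| ≤ W * N) →
      (En h v : ℝ) * N ≤ Real.log N ^ C * (Fintype.card ι : ℝ) ^ (2 * h) →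
      ∀ S : Finset ι, (∀ i ∈ S, 0 < v i ∧ Even (v i) ∧ ¬ Pool.Agent.TH935.DG.HG ε A 0 N (v i).toNat) →
      (S.card : ℝ) ≤ Fintype.card ι / Real.log N ^ U := by
  classical
  obtain ⟨N₀, h0⟩ := Pool.Agent.TH935.LF.transferZ h W C U
    (fun N c => 0 < c → Even c → Pool.Agent.TH935.DG.HG ε A 0 N c.toNat) (by
    intro C U
    obtain ⟨N₀, h1⟩ := Pool.Agent.TH935.DG.fam_g h A 0 C W U (min ε (1 / 2)) (lt_min hε (by norm_num)) (min_le_right _ _)
    refine ⟨N₀, fun N hN x s hs hE S hSx hS => h1 N hN x s (fun m hm => (hs m hm).1) hE S hSx fun m hm => ?_⟩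
    have h2 := hS m hm
    push Not at h2
    obtain ⟨h3, h4, h5⟩ := h2
    refine ⟨h3, h4, fun hG => h5 ?_⟩
    intro k r hk hkL hr hrn y₁ y₂ h12 hy2 hΔ
    refine (hG k r hk hkL hr hrn y₁ y₂ h12 hy2 hΔ).trans ?_
    apply mul_le_mul_of_nonneg_right (min_le_left _ _)
    have h3 : (0 : ℝ) ≤ (y₂ : ℝ) - y₁ := by
      have : (y₁ : ℝ) ≤ y₂ := by exact_mod_cast h12.le
      linarith
    have h4 : 0 ≤ sing (s m).toNat := by
      have := Pool.Agent.W93.GB.one_le_sing (s m).toNat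
      linarith
    positivity)
  refine ⟨N₀, fun N hN ι _ v hv hE S hS => h0 N hN ι v hv hE S ?_⟩
  intro i hi
  obtain ⟨h1, h2, h3⟩ := hS i hi
  exact ⟨h1.ne', fun h4 => h3 (h4 h1 h2)⟩

lemma g_eq (n : ℕ) (hn : 1 ≤ n) : g n = Pool.Agent.TH935.DG.cg 1 0 n 0 (n - 1) := by
  unfold g Pool.Agent.TH935.DG.cg
  apply card_bij' (fun q _ => q.1) (fun q _ => (q, n - q))
  · intro q hq
    rw [mem_filter, HasAntidiagonal.mem_antidiagonal] at hq
    rw [mem_filter, mem_Ioc]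
    obtain ⟨h1, h2, h3⟩ := hq
    have := h2.two_le
    have := h3.two_le
    refine ⟨by omega, h2, ?_, Nat.modEq_one⟩
    have e : n - q.1 = q.2 := by omega
    rw [e]; exact h3
  · intro q hq
    rw [mem_filter, mem_Ioc] at hq
    rw [mem_filter, HasAntidiagonal.mem_antidiagonal]
    simp only
    exact ⟨by omega, hq.2.1, hq.2.2.1⟩
  · intro q hq
    rw [mem_filter, HasAntidiagonal.mem_antidiagonal] at hq
    ext
    · rfl
    · simp only; omega
  · intro q hq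
    rfl

/-- the whole count for `x / 2 < n ≤ x` -/
theorem near (ε : ℝ) (hε : 0 < ε) : ∃ N₀ : ℕ, ∀ N : ℕ, N₀ ≤ N → ∀ n : ℕ, (N : ℝ) / 2 < n → n ≤ N →
    Pool.Agent.TH935.DG.HG (ε / 2) 1 0 N n → |(g n : ℝ) - HL n| ≤ ε * HL n := by
  obtain ⟨N₁, h1⟩ := Pool.Agent.H373R2.T7.ev_L' (32 / ε + 8)
  refine ⟨N₁ + 16, fun N hN n hn1 hn2 hG => ?_⟩
  have hL := h1 N (by omega)
  have hn0 : 8 ≤ n := by
    have : (16 : ℝ) ≤ N := by exact_mod_cast (by omega : 16 ≤ N)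
    have h2 : (8 : ℝ) < n := by linarith
    exact_mod_cast h2.le
  have hnr : (8 : ℝ) ≤ n := by exact_mod_cast hn0
  have hNr : (16 : ℝ) ≤ N := by exact_mod_cast (by omega : 16 ≤ N)
  have hnN : (n : ℝ) ≤ N := by exact_mod_cast hn2
  obtain ⟨L, hLd⟩ : ∃ L, L = Real.log (N : ℝ) := ⟨_, rfl⟩
  rw [← hLd] at hL
  have h32 : 0 < 32 / ε := by positivity
  have hL8 : 8 ≤ L := by linarith
  have hLε : 32 ≤ L * ε := by
    have : 32 / ε ≤ L := by linarith
    rwa [div_le_iff₀ hε] at this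
  have h2 := hG 1 0 le_rfl (by simp) (by simp) (by simpa using isCoprime_one_right) 0 (n - 1) (by omega) (by omega) (by
    rw [← hLd, pow_one]
    push_cast [Nat.cast_sub (by omega : 1 ≤ n)]
    rw [div_le_iff₀ (by linarith)]
    nlinarith)
  rw [← g_eq n (by omega)] at h2
  have hC : Pool.Agent.W93.PP.Cnt 1 n = 1 := by
    unfold Pool.Agent.W93.PP.Cnt
    simp
  rw [hC, ← hLd] at h2
  push_cast [Nat.cast_sub (by omega : 1 ≤ n)] at h2
  rw [sub_zero, one_mul] at h2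
  have hs : 1 ≤ sing n := Pool.Agent.W93.GB.one_le_sing n
  obtain ⟨ℓ, hℓ⟩ : ∃ ℓ, ℓ = Real.log (n : ℝ) := ⟨_, rfl⟩
  have hℓL : ℓ ≤ L := by rw [hℓ, hLd]; exact Real.log_le_log (by linarith) hnN
  have hLℓ : L - 1 ≤ ℓ := by
    have h3 : Real.log (N : ℝ) ≤ Real.log (2 * n : ℝ) := Real.log_le_log (by linarith) (by linarith)
    rw [Real.log_mul (by norm_num) (by linarith), ← hLd, ← hℓ] at h3
    have := Real.log_two_lt_d9
    linarith
  have hℓ0 : 0 < ℓ := by linarith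
  unfold HL
  rw [← hℓ]
  obtain ⟨P, hP⟩ : ∃ P, P = sing n * ((n : ℝ) - 1) / L ^ 2 := ⟨_, rfl⟩
  obtain ⟨Q, hQ⟩ : ∃ Q, Q = sing n * ((n : ℝ) / ℓ ^ 2) := ⟨_, rfl⟩
  rw [← hP] at h2
  rw [← hQ]
  have hL0 : 0 < L := by linarith
  have hQ0 : 0 < Q := by
    rw [hQ]
    have : 0 < (n : ℝ) := by linarith
    positivity
  have hPQ : P ≤ Q := by
    rw [hP, hQ, mul_div_assoc]
    apply mul_le_mul_of_nonneg_left _ (by linarith)
    apply div_le_div₀ (by linarith) (by linarith) (by positivity)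
    exact pow_le_pow_left₀ hℓ0.le hℓL _
  have hQP : Q - P ≤ ε / 2 * Q := by
    have e1 : P = Q * (((n : ℝ) - 1) / n * (ℓ / L) ^ 2) := by
      rw [hP, hQ]
      have : (n : ℝ) ≠ 0 := by linarith
      field_simp
    have e2 : 1 - ε / 4 ≤ ((n : ℝ) - 1) / n := by
      rw [le_div_iff₀ (by linarith)]
      have : 4 ≤ ε * n := by
        have h5 : L ≤ N := by rw [hLd]; have := Real.log_le_sub_one_of_pos (show (0 : ℝ) < N by linarith); linarith
        nlinarith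
      nlinarith
    have e3 : 1 - ε / 4 ≤ (ℓ / L) ^ 2 := by
      have e4 : 1 - ε / 8 ≤ ℓ / L := by
        rw [le_div_iff₀ hL0]
        nlinarith
      have e6 : ℓ / L ≤ 1 := by rw [div_le_one hL0]; exact hℓL
      have e7 : 0 ≤ ℓ / L := by positivity
      nlinarith [sq_nonneg (1 - ℓ / L)]
    have e5 : 1 - ε / 2 ≤ ((n : ℝ) - 1) / n * (ℓ / L) ^ 2 := by
      have f1 : ((n : ℝ) - 1) / n ≤ 1 := by rw [div_le_one (by linarith)]; linarith
      have f2 : (ℓ / L) ^ 2 ≤ 1 := by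
        have e6 : ℓ / L ≤ 1 := by rw [div_le_one hL0]; exact hℓL
        have e7 : 0 ≤ ℓ / L := by positivity
        nlinarith
      have f3 : 0 ≤ ((n : ℝ) - 1) / n := by
        have : (0 : ℝ) ≤ (n : ℝ) - 1 := by linarith
        positivity
      nlinarith
    rw [e1]
    nlinarith
  rw [abs_le] at h2 ⊢
  constructor
  · nlinarith
  · nlinarith

end Pool.Agent.TH345.GBM
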