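import Pool.Agent.TH345.GBM.A

set_option autoImplicit false

namespace Pool.Agent.TH345.GBM

open Finset Pool.Agent.H560R3.GB Pool.Agent.TH935.GF

lemma En_sub (h : ℕ) {ι : Type} [Fintype ι] (v : ι → ℤ) (p : ι → Prop) [DecidablePred p] :
    En h (fun i : {i // p i} => v i) ≤ En h v := by
  classical
  unfold En
  let f : {q : (Fin h → {i // p i}) × (Fin h → {i // p i}) // ∑ j, v (q.1 j) = ∑ j, v (q.2 j)} →
    {q : (Fin h → ι) × (Fin h → ι) // ∑ j, v (q.1 j) = ∑ j, v (q.2 j)} :=
    fun q => ⟨(fun j => (q.1.1 j).1, fun j => (q.1.2 j).1), q.2⟩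
  apply Nat.card_le_card_of_injective f
  intro q q' hq
  have h0 := congrArg Subtype.val hq
  have h1 := congrArg Prod.fst h0
  have h2 := congrArg Prod.snd h0
  apply Subtype.ext
  apply Prod.ext
  · funext j
    exact Subtype.ext (congrFun h1 j)
  · funext j
    exact Subtype.ext (congrFun h2 j)

lemma En_mul (h : ℕ) {ι : Type} [Fintype ι] (v : ι → ℤ) (m : ℤ) (hm : m ≠ 0) :
    En h (fun i => m * v i) = En h v := by
  unfold En
  apply Nat.card_congr
  apply Equiv.subtypeEquivRight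
  intro q
  rw [← mul_sum, ← mul_sum]
  exact mul_right_inj' hm

/-- no exceptional multiples, for almost all members of the family -/
theorem mult (h A C U : ℕ) (ε : ℝ) (hε : 0 < ε) :
    ∃ N₀ : ℕ, ∀ N : ℕ, N₀ ≤ N → ∀ (ι : Type) [Fintype ι] (q : ι → ℕ),
      (∀ i, (N : ℝ) / Real.log N ^ A ≤ q i) →
      (En h (fun i => (q i : ℤ)) : ℝ) * N ≤ Real.log N ^ C * (Fintype.card ι : ℝ) ^ (2 * h) →
      ∀ S : Finset ι, (∀ i ∈ S, ∃ n : ℕ, q i ∣ n ∧ Even n ∧ (N : ℝ) / 2 < n ∧ n ≤ N ∧
        ¬ |(g n : ℝ) - HL n| ≤ ε * HL n) →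
      (S.card : ℝ) ≤ Fintype.card ι / Real.log N ^ U := by
  classical
  obtain ⟨N₀, h0⟩ := fam h 1 (C + 2 * h * (U + A)) 1 (U + A) (ε / 2) (by positivity)
  obtain ⟨N₁, h1⟩ := near ε hε
  obtain ⟨N₂, h2⟩ := Pool.Agent.H373R2.T7.ev_L' 3
  refine ⟨N₀ + N₁ + N₂ + 1, fun N hN ι _ q hq hE S hS => ?_⟩
  have c0 := h0 N (by omega)
  have c1 := h1 N (by omega)
  have c2 := h2 N (by omega)
  obtain ⟨L, hL⟩ : ∃ L, L = Real.log (N : ℝ) := ⟨_, rfl⟩
  rw [← hL] at c0 c2 hE hq ⊢
  have hL1 : 1 ≤ L := by linarith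
  have hL0 : 0 < L := by linarith
  have hN1 : (1 : ℝ) ≤ N := by exact_mod_cast (by omega : 1 ≤ N)
  obtain ⟨M, hM⟩ : ∃ M : ℕ, M = ⌊L ^ A⌋₊ := ⟨_, rfl⟩
  have hML : (M : ℝ) ≤ L ^ A := by rw [hM]; exact Nat.floor_le (by positivity)
  have hι0 : (0 : ℝ) ≤ Fintype.card ι := Nat.cast_nonneg _
  obtain ⟨F, hF⟩ : ∃ F : ℕ → Finset ι, F = fun m => univ.filter (fun i => m * q i ≤ N ∧ (N : ℝ) / 2 < (m * q i : ℕ) ∧
    Even (m * q i) ∧ ¬ |(g (m * q i) : ℝ) - HL (m * q i)| ≤ ε * HL (m * q i)) := ⟨_, rfl⟩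
  have hsub : S ⊆ (Icc 1 M).biUnion F := by
    intro i hi
    obtain ⟨n, ⟨m, hm⟩, hn2, hn3, hn4, hn5⟩ := hS i hi
    rw [mul_comm] at hm
    rw [mem_biUnion]
    refine ⟨m, ?_, ?_⟩
    · rw [mem_Icc]
      have hqi := hq i
      have hqi0 : 0 < (q i : ℝ) := lt_of_lt_of_le (by positivity) hqi
      constructor
      · by_contra hm0
        have : m = 0 := by omega
        rw [this, zero_mul] at hm
        rw [hm] at hn3
        push_cast at hn3
        linarith
      · rw [hM]
        apply Nat.le_floor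
        have h5 : (m : ℝ) * q i ≤ N := by rw [hm] at hn4; exact_mod_cast hn4
        rw [div_le_iff₀ (by positivity)] at hqi
        by_contra h6
        push Not at h6
        have : (q i : ℝ) * L ^ A < q i * m := mul_lt_mul_of_pos_left h6 hqi0
        linarith
    · rw [hF]
      simp only
      rw [mem_filter, ← hm]
      exact ⟨mem_univ _, hn4, hn3, hn2, hn5⟩
  have hone : ∀ m ∈ Icc 1 M, ((F m).card : ℝ) ≤ Fintype.card ι / L ^ (U + A) := by
    intro m hm
    rw [mem_Icc] at hm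
    by_cases hT : (Fintype.card {i // m * q i ≤ N} : ℝ) ≤ Fintype.card ι / L ^ (U + A)
    · refine le_trans ?_ hT
      rw [Fintype.card_subtype]
      have : F m ⊆ univ.filter (fun i => m * q i ≤ N) := by
        intro i hi
        rw [hF] at hi
        simp only at hi
        rw [mem_filter] at hi ⊢
        exact ⟨hi.1, hi.2.1⟩
      exact_mod_cast card_le_card this
    · push Not at hT
      have hT2 : (Fintype.card {i // m * q i ≤ N} : ℝ) ≤ Fintype.card ι := by
        exact_mod_cast Fintype.card_subtype_le _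
      have key := c0 {i // m * q i ≤ N} (fun i => (m : ℤ) * (q i.1 : ℤ)) (by
        intro i
        have h5 : ((m * q i.1 : ℕ) : ℤ) ≤ N := by exact_mod_cast i.2
        rw [abs_of_nonneg (by positivity)]
        push_cast at h5 ⊢
        linarith) (by
        have e1 : En h (fun i : {i // m * q i ≤ N} => (m : ℤ) * (q i.1 : ℤ)) ≤ En h (fun i => (q i : ℤ)) := by
          rw [En_mul h (fun i : {i // m * q i ≤ N} => (q i.1 : ℤ)) m (by exact_mod_cast (by omega : m ≠ 0))]
          exact En_sub h (fun i => (q i : ℤ)) (fun i => m * q i ≤ N)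
        have e2 : (En h (fun i : {i // m * q i ≤ N} => (m : ℤ) * (q i.1 : ℤ)) : ℝ) ≤ En h (fun i => (q i : ℤ)) := by
          exact_mod_cast e1
        have e3 : (Fintype.card ι : ℝ) ≤ Fintype.card {i // m * q i ≤ N} * L ^ (U + A) := by
          rw [div_lt_iff₀ (by positivity)] at hT
          exact hT.le
        calc (En h (fun i : {i // m * q i ≤ N} => (m : ℤ) * (q i.1 : ℤ)) : ℝ) * N
            ≤ En h (fun i => (q i : ℤ)) * N := mul_le_mul_of_nonneg_right e2 (by linarith)
          _ ≤ L ^ C * (Fintype.card ι : ℝ) ^ (2 * h) := hE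
          _ ≤ L ^ C * (Fintype.card {i // m * q i ≤ N} * L ^ (U + A)) ^ (2 * h) := by
              apply mul_le_mul_of_nonneg_left _ (by positivity)
              exact pow_le_pow_left₀ hι0 e3 _
          _ = L ^ (C + 2 * h * (U + A)) * (Fintype.card {i // m * q i ≤ N} : ℝ) ^ (2 * h) := by
              rw [mul_pow, ← pow_mul, pow_add, mul_comm (U + A) (2 * h)]
              ring)
        (univ.filter (fun i : {i // m * q i ≤ N} => (N : ℝ) / 2 < (m * q i : ℕ) ∧
          Even (m * q i) ∧ ¬ |(g (m * q i) : ℝ) - HL (m * q i)| ≤ ε * HL (m * q i))) (by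
        intro i hi
        rw [mem_filter] at hi
        obtain ⟨_, h5, h6, h7⟩ := hi
        have e0 : (m : ℤ) * (q i.1 : ℤ) = ((m * q i.1 : ℕ) : ℤ) := by push_cast; rfl
        rw [e0, Int.toNat_natCast]
        refine ⟨?_, by exact_mod_cast h6, fun hG => h7 (c1 _ h5 i.2 hG)⟩
        have : (0 : ℝ) < (m * q i.1 : ℕ) := lt_trans (by positivity) h5
        exact_mod_cast this)
      have e4 : (F m).card = (univ.filter (fun i : {i // m * q i ≤ N} => (N : ℝ) / 2 < (m * q i : ℕ) ∧
          Even (m * q i) ∧ ¬ |(g (m * q i) : ℝ) - HL (m * q i)| ≤ ε * HL (m * q i))).card := by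
        rw [hF]
        symm
        apply card_bij (fun (i : {i // m * q i ≤ N}) _ => i.1)
        · intro i hi
          rw [mem_filter] at hi
          simp only
          rw [mem_filter]
          exact ⟨mem_univ _, i.2, hi.2⟩
        · intro i _ j _ hij
          exact Subtype.ext hij
        · intro i hi
          simp only at hi
          rw [mem_filter] at hi
          exact ⟨⟨i, hi.2.1⟩, by rw [mem_filter]; exact ⟨mem_univ _, hi.2.2⟩, rfl⟩
      rw [e4]
      refine key.trans ?_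
      exact div_le_div_of_nonneg_right hT2 (by positivity)
  calc (S.card : ℝ) ≤ (((Icc 1 M).biUnion F).card : ℝ) := by exact_mod_cast card_le_card hsub
    _ ≤ ((∑ m ∈ Icc 1 M, (F m).card : ℕ) : ℝ) := by exact_mod_cast card_biUnion_le
    _ = ∑ m ∈ Icc 1 M, ((F m).card : ℝ) := by push_cast; rfl
    _ ≤ ∑ _m ∈ Icc 1 M, (Fintype.card ι : ℝ) / L ^ (U + A) := sum_le_sum hone
    _ = M * (Fintype.card ι / L ^ (U + A)) := by
        rw [sum_const, Nat.card_Icc, nsmul_eq_mul]
        congr 1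
    _ ≤ L ^ A * (Fintype.card ι / L ^ (U + A)) := by
        apply mul_le_mul_of_nonneg_right hML (by positivity)
    _ = Fintype.card ι / L ^ U := by
        rw [pow_add L U A]
        field_simp

end Pool.Agent.TH345.GBM
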