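import Pool.Agent.TH345.GBM.B

set_option autoImplicit false

/-! All the even numbers close to almost all members of a thin family (progressions and windows). -/

namespace Pool.Agent.TH345.GBM

open Finset Pool.Agent.H560R3.GB Pool.Agent.TH935.GF

theorem famB (h A B C W U : ℕ) (ε : ℝ) (hε : 0 < ε) :
    ∃ N₀ : ℕ, ∀ N : ℕ, N₀ ≤ N → ∀ (ι : Type) [Fintype ι] (v : ι → ℤ),
      (∀ i, |v i| ≤ W * N) →
      (En h v : ℝ) * N ≤ Real.log N ^ C * (Fintype.card ι : ℝ) ^ (2 * h) →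
      ∀ S : Finset ι, (∀ i ∈ S, 0 < v i ∧ Even (v i) ∧ ¬ Pool.Agent.TH935.DG.HG ε A B N (v i).toNat) →
      (S.card : ℝ) ≤ Fintype.card ι / Real.log N ^ U := by
  classical
  obtain ⟨N₀, h0⟩ := Pool.Agent.TH935.LF.transferZ h W C U
    (fun N c => 0 < c → Even c → Pool.Agent.TH935.DG.HG ε A B N c.toNat) (by
    intro C U
    obtain ⟨N₀, h1⟩ := Pool.Agent.TH935.DG.fam_g h A B C W U (min ε (1 / 2)) (lt_min hε (by norm_num)) (min_le_right _ _)
    refine ⟨N₀, fun N hN x s hs hE S hSx hS => h1 N hN x s (fun m hm => (hs m hm).1) hE S hSx fun m hm => ?_⟩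
    have h2 := hS m hm
    push Not at h2
    obtain ⟨h3, h4, h5⟩ := h2
    refine ⟨h3, h4, fun hG => h5 ?_⟩
    intro k r hk hkL hr hrn y₁ y₂ h12 hy2 hΔ
    refine (hG k r hk hkL hr hrn y₁ y₂ h12 hy2 hΔ).trans ?_
    apply mul_le_mul_of_nonneg_right (min_le_left _ _)
    have h3 : (0 : ℝ) ≤ (y₂ : ℝ) - y₁ := by
      have : (y₁ : ℝ) ≤ y₂ := by exact_mod_cast h12.le
      linarith
    have h4 : 0 ≤ sing (s m).toNat := by
      have := Pool.Agent.W93.GB.one_le_sing (s m).toNat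
      linarith
    positivity)
  refine ⟨N₀, fun N hN ι _ v hv hE S hS => h0 N hN ι v hv hE S ?_⟩
  intro i hi
  obtain ⟨h1, h2, h3⟩ := hS i hi
  exact ⟨h1.ne', fun h4 => h3 (h4 h1 h2)⟩

/-- all even numbers close to almost all members -/
theorem close (h A B D C W U : ℕ) (ε : ℝ) (hε : 0 < ε) :
    ∃ N₀ : ℕ, ∀ N : ℕ, N₀ ≤ N → ∀ (ι : Type) [Fintype ι] (v : ι → ℤ),
      (∀ i, |v i| ≤ W * N) →
      (En h v : ℝ) * N ≤ Real.log N ^ C * (Fintype.card ι : ℝ) ^ (2 * h) →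
      ∀ S : Finset ι, (∀ i ∈ S, ∃ n : ℕ, 0 < n ∧ Even n ∧ ((|(n : ℤ) - v i| : ℤ) : ℝ) ≤ Real.log N ^ D ∧
        ¬ Pool.Agent.TH935.DG.HG ε A B N n) →
      (S.card : ℝ) ≤ Fintype.card ι / Real.log N ^ U := by
  classical
  obtain ⟨N₀, h0⟩ := famB h A B C (W + 1) (U + D + 1) ε hε
  obtain ⟨N₁, h1⟩ := Pool.Agent.H373R2.T7.ev_L' 3
  obtain ⟨N₂, h2⟩ := Pool.Agent.H373R2.T7.ev_log' D 1
  refine ⟨N₀ + N₁ + N₂ + 1, fun N hN ι _ v hv hE S hS => ?_⟩
  have c0 := h0 N (by omega) ι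
  have c1 := h1 N (by omega)
  have c2 := h2 N (by omega)
  obtain ⟨L, hL⟩ : ∃ L, L = Real.log (N : ℝ) := ⟨_, rfl⟩
  rw [← hL] at c0 c1 c2 hE hS ⊢
  rw [one_mul] at c2
  have hL1 : 1 ≤ L := by linarith
  have hL0 : 0 < L := by linarith
  have hN1 : (1 : ℝ) ≤ N := by exact_mod_cast (by omega : 1 ≤ N)
  have hLN : L ^ D ≤ N := by
    refine c2.trans ?_
    rw [Real.sqrt_le_left (by linarith)]
    nlinarith
  obtain ⟨R, hR⟩ : ∃ R : ℕ, R = ⌊L ^ D⌋₊ := ⟨_, rfl⟩
  have hRL : (R : ℝ) ≤ L ^ D := by rw [hR]; exact Nat.floor_le (by positivity)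
  have hRN : R ≤ N := by exact_mod_cast hRL.trans hLN
  have hι0 : (0 : ℝ) ≤ Fintype.card ι := Nat.cast_nonneg _
  obtain ⟨F, hF⟩ : ∃ F : ℤ → Finset ι, F = fun δ => univ.filter (fun i => 0 < v i + δ ∧ Even (v i + δ) ∧
    ¬ Pool.Agent.TH935.DG.HG ε A B N (v i + δ).toNat) := ⟨_, rfl⟩
  have hsub : S ⊆ (Icc (-(R : ℤ)) R).biUnion F := by
    intro i hi
    obtain ⟨n, hn0, hn2, hnL, hn⟩ := hS i hi
    rw [mem_biUnion]
    refine ⟨(n : ℤ) - v i, ?_, ?_⟩
    · rw [mem_Icc, ← abs_le]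
      have h5 : ((((n : ℤ) - v i).natAbs : ℕ) : ℝ) ≤ L ^ D := by
        refine le_trans (le_of_eq ?_) hnL
        exact Nat.cast_natAbs _
      have h6 : ((n : ℤ) - v i).natAbs ≤ R := by rw [hR]; exact Nat.le_floor h5
      rw [← Int.natCast_natAbs]
      exact_mod_cast h6
    · rw [hF]
      simp only
      rw [mem_filter]
      have e : v i + ((n : ℤ) - v i) = n := by ring
      rw [e, Int.toNat_natCast]
      exact ⟨mem_univ _, by exact_mod_cast hn0, by exact_mod_cast hn2, hn⟩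
  have hone : ∀ δ ∈ Icc (-(R : ℤ)) R, ((F δ).card : ℝ) ≤ Fintype.card ι / L ^ (U + D + 1) := by
    intro δ hδ
    rw [mem_Icc, ← abs_le] at hδ
    apply c0 (fun i => v i + δ)
    · intro i
      have h5 := hv i
      have h6 : (R : ℤ) ≤ N := by exact_mod_cast hRN
      refine (abs_add_le _ _).trans ?_
      push_cast
      linarith
    · have e : En h (fun i => v i + δ) = En h v := by
        unfold En
        apply Nat.card_congr
        apply Equiv.subtypeEquivRight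
        intro q
        rw [sum_add_distrib, sum_add_distrib, add_left_inj]
      rw [e]
      exact hE
    · intro i hi
      rw [hF] at hi
      simp only at hi
      rw [mem_filter] at hi
      exact hi.2
  calc (S.card : ℝ)
      ≤ (((Icc (-(R : ℤ)) R).biUnion F).card : ℝ) := by exact_mod_cast card_le_card hsub
    _ ≤ ((∑ δ ∈ Icc (-(R : ℤ)) R, (F δ).card : ℕ) : ℝ) := by exact_mod_cast card_biUnion_le
    _ = ∑ δ ∈ Icc (-(R : ℤ)) R, ((F δ).card : ℝ) := by push_cast; rfl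
    _ ≤ ∑ _δ ∈ Icc (-(R : ℤ)) R, (Fintype.card ι : ℝ) / L ^ (U + D + 1) := sum_le_sum hone
    _ = (2 * R + 1) * (Fintype.card ι / L ^ (U + D + 1)) := by
        rw [sum_const, Int.card_Icc, nsmul_eq_mul]
        congr 1
        have : ((R : ℤ) + 1 - -(R : ℤ)).toNat = 2 * R + 1 := by omega
        rw [this]
        push_cast
        rfl
    _ ≤ L ^ (D + 1) * (Fintype.card ι / L ^ (U + D + 1)) := by
        apply mul_le_mul_of_nonneg_right _ (by positivity)
        have h6 : 1 ≤ L ^ D := one_le_pow₀ hL1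
        rw [pow_succ]
        nlinarith
    _ = Fintype.card ι / L ^ U := by
        rw [show U + D + 1 = U + (D + 1) by ring, pow_add L U (D + 1)]
        field_simp

/-- `log n` against `log N` for `N / log ^ D N ≤ n ≤ 2 W N` -/
theorem logs (D W : ℕ) (ε : ℝ) (hε : 0 < ε) : ∃ N₀ : ℕ, ∀ N : ℕ, N₀ ≤ N → ∀ n : ℕ,
    (N : ℝ) / Real.log N ^ D ≤ n → n ≤ W * N →
    (1 - ε) * Real.log N ≤ Real.log n ∧ Real.log n ≤ (1 + ε) * Real.log N := by
  obtain ⟨N₁, h1⟩ := Pool.Agent.H373R2.T7.ev_L' ((2 * (D + W) / ε) ^ 2 + 3)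
  refine ⟨N₁ + 1, fun N hN n hn1 hn2 => ?_⟩
  have hL := h1 N (by omega)
  obtain ⟨L, hLd⟩ : ∃ L, L = Real.log (N : ℝ) := ⟨_, rfl⟩
  rw [← hLd] at hL hn1 ⊢
  have hp : 0 ≤ (2 * ((D : ℝ) + W) / ε) ^ 2 := by positivity
  have hL3 : 3 ≤ L := by linarith
  have hL0 : 0 < L := by linarith
  have hNr : (1 : ℝ) ≤ N := by exact_mod_cast (by omega : 1 ≤ N)
  have hN0 : (0 : ℝ) < N := by linarith
  have hn0 : (0 : ℝ) < n := lt_of_lt_of_le (by positivity) hn1
  have hlogL : ((D : ℝ) + W) * Real.log L ≤ ε * L := by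
    have d2 : Real.log L ≤ 2 * √L := by
      have d3 := Real.log_le_sub_one_of_pos (Real.sqrt_pos.2 hL0)
      rw [Real.log_sqrt hL0.le] at d3
      linarith [Real.sqrt_nonneg L]
    have d4 : 2 * ((D : ℝ) + W) / ε ≤ √L := by
      apply Real.le_sqrt_of_sq_le
      linarith
    have d5 : 2 * ((D : ℝ) + W) ≤ √L * ε := by rwa [div_le_iff₀ hε] at d4
    have d6 : √L * √L = L := Real.mul_self_sqrt hL0.le
    calc ((D : ℝ) + W) * Real.log L ≤ ((D : ℝ) + W) * (2 * √L) := mul_le_mul_of_nonneg_left d2 (by positivity)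
      _ = (2 * ((D : ℝ) + W)) * √L := by ring
      _ ≤ (√L * ε) * √L := mul_le_mul_of_nonneg_right d5 (Real.sqrt_nonneg _)
      _ = ε * (√L * √L) := by ring
      _ = ε * L := by rw [d6]
  have hlL1 : 1 ≤ Real.log L := by
    rw [Real.le_log_iff_exp_le hL0]
    have := Real.exp_one_lt_d9
    linarith
  have hD0 : (0 : ℝ) ≤ D := Nat.cast_nonneg _
  have hW0 : (0 : ℝ) ≤ W := Nat.cast_nonneg _
  constructor
  · have h3 := Real.log_le_log (by positivity) hn1
    rw [Real.log_div (by linarith) (by positivity), Real.log_pow, ← hLd] at h3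
    nlinarith
  · have h4 : (n : ℝ) ≤ W * N := by exact_mod_cast hn2
    have hWp : (0 : ℝ) < W := by
      by_contra h5
      have : (W : ℝ) = 0 := le_antisymm (not_lt.1 h5) hW0
      rw [this] at h4
      linarith
    have h3 := Real.log_le_log hn0 h4
    rw [Real.log_mul hWp.ne' (by linarith), ← hLd] at h3
    have h6 : Real.log (W : ℝ) ≤ W := by
      have := Real.log_le_sub_one_of_pos hWp
      linarith
    nlinarith

end Pool.Agent.TH345.GBM
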