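import Pool.Agent.TH345.GBM.C

set_option autoImplicit false

namespace Pool.Agent.TH345.GBM

open Finset Pool.Agent.H560R3.GB Pool.Agent.TH935.GF

lemma neg_mod (k : ℕ) (hk : 1 ≤ k) (A : ℕ) : ∃ j : ℤ, (((-(A : ℤ)) % k).toNat : ℤ) = -A + k * j ∧ ((-(A : ℤ)) % k).toNat < k := by
  have hk0 : (0 : ℤ) < k := by exact_mod_cast hk
  have e0 : ((((-(A : ℤ)) % k).toNat : ℕ) : ℤ) = (-(A : ℤ)) % k := Int.toNat_of_nonneg (Int.emod_nonneg _ hk0.ne')
  refine ⟨-((-(A : ℤ)) / k), ?_, ?_⟩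
  · have := Int.emod_add_mul_ediv (-(A : ℤ)) k
    rw [e0]
    linarith
  · have : ((((-(A : ℤ)) % k).toNat : ℕ) : ℤ) < k := by rw [e0]; exact Int.emod_lt_of_pos _ hk0
    exact_mod_cast this

lemma neg_neg_mod (k : ℕ) (hk : 1 ≤ k) (A : ℕ) (hA : A < k) :
    ((-((((-(A : ℤ)) % k).toNat : ℕ) : ℤ)) % k).toNat = A := by
  obtain ⟨j, h1, h2⟩ := neg_mod k hk A
  obtain ⟨A', hA'⟩ : ∃ A', A' = ((-(A : ℤ)) % k).toNat := ⟨_, rfl⟩
  rw [← hA'] at h1 h2 ⊢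
  obtain ⟨j', h3, h4⟩ := neg_mod k hk A'
  obtain ⟨A'', hA''⟩ : ∃ A'', A'' = ((-(A' : ℤ)) % k).toNat := ⟨_, rfl⟩
  rw [← hA''] at h3 h4 ⊢
  have h5 : (k : ℤ) ∣ (A'' : ℤ) - A := ⟨j' - j, by rw [h3, h1]; ring⟩
  have h6 : |(A'' : ℤ) - A| < k := by
    rw [abs_lt]
    constructor <;> omega
  have h7 := Int.eq_zero_of_abs_lt_dvd h5 h6
  omega

lemma cnt_eq (k n : ℕ) (hk : 1 ≤ k) :
    Nat.card {α : ℕ // α < k ∧ Nat.Coprime α k ∧ IsCoprime ((n : ℤ) - α) (k : ℤ)} =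
      Pool.Agent.W93.PP.Cnt k n := by
  classical
  have e : Nat.card {α : ℕ // α < k ∧ Nat.Coprime α k ∧ IsCoprime ((n : ℤ) - α) (k : ℤ)} =
      ((range k).filter (fun α => Nat.Coprime α k ∧ IsCoprime ((n : ℤ) - α) (k : ℤ))).card := by
    rw [← Fintype.card_coe, ← Nat.card_eq_fintype_card]
    apply Nat.card_congr
    apply Equiv.subtypeEquivRight
    intro α
    rw [mem_filter, mem_range]
  rw [e]
  unfold Pool.Agent.W93.PP.Cnt
  apply card_bij' (fun (A : ℕ) _ => ((-(A : ℤ)) % k).toNat) (fun (A : ℕ) _ => ((-(A : ℤ)) % k).toNat)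
  · intro A hA
    rw [mem_filter, mem_range] at hA ⊢
    obtain ⟨j, h1, h2⟩ := neg_mod k hk A
    refine ⟨h2, ?_, ?_⟩
    · rw [← Nat.isCoprime_iff_coprime, h1]
      exact ((Nat.isCoprime_iff_coprime.2 hA.2.1).neg_left).add_mul_left_left _
    · rw [← Nat.isCoprime_iff_coprime]
      push_cast
      rw [h1, show -(A : ℤ) + k * j + n = ((n : ℤ) - A) + k * j by ring]
      exact hA.2.2.add_mul_left_left _
  · intro A hA
    rw [mem_filter, mem_range] at hA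
    obtain ⟨j, h1, h2⟩ := neg_mod k hk A
    rw [mem_filter, mem_range]
    refine ⟨h2, ?_, ?_⟩
    · rw [← Nat.isCoprime_iff_coprime, h1]
      exact ((Nat.isCoprime_iff_coprime.2 hA.2.1).neg_left).add_mul_left_left _
    · rw [h1, show (n : ℤ) - (-(A : ℤ) + k * j) = ((A : ℤ) + n) + k * (-j) by ring]
      have h3 : IsCoprime ((A : ℤ) + n) (k : ℤ) := by
        have := Nat.isCoprime_iff_coprime.2 hA.2.2
        push_cast at this
        exact this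
      exact h3.add_mul_left_left _
  · intro A hA
    rw [mem_filter, mem_range] at hA
    exact neg_neg_mod k hk A hA.1
  · intro A hA
    rw [mem_filter, mem_range] at hA
    exact neg_neg_mod k hk A hA.1

/-- comparison of two predictions -/
lemma cmp (ε c P Q a b : ℝ) (hε : 0 < ε) (hε1 : ε ≤ 1) (hQ : 0 ≤ Q) (hc : |c - P| ≤ ε / 4 * P) (hP : P = Q * (a * b ^ 2))
    (ha : 1 - ε / 16 ≤ a) (ha1 : a ≤ 1) (hb : 1 - ε / 16 ≤ b) (hb1 : b ≤ 1 + ε / 16) : |c - Q| ≤ ε / 2 * Q := by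
  have b0 : 0 ≤ b := by linarith
  have a0 : 0 ≤ a := by linarith
  have e1 : b ^ 2 ≤ 1 + ε / 7 := by nlinarith
  have e2 : 1 - ε / 8 ≤ b ^ 2 := by nlinarith
  have e3 : a * b ^ 2 ≤ 1 + ε / 7 := by nlinarith [sq_nonneg b]
  have e4 : 1 - ε / 4 + ε / 16 ≤ a * b ^ 2 := by nlinarith [sq_nonneg b]
  have e5 : P ≤ Q * (1 + ε / 7) := by rw [hP]; exact mul_le_mul_of_nonneg_left e3 hQ
  have e6 : Q * (1 - ε / 4 + ε / 16) ≤ P := by rw [hP]; exact mul_le_mul_of_nonneg_left e4 hQ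
  have e7 : 0 ≤ Q * ε := by positivity
  have e8 : ε / 4 * P ≤ Q * ε * (2 / 7) := by
    calc ε / 4 * P ≤ ε / 4 * (Q * (1 + ε / 7)) := mul_le_mul_of_nonneg_left e5 (by linarith)
      _ = Q * ε * ((1 + ε / 7) / 4) := by ring
      _ ≤ Q * ε * (2 / 7) := by
          apply mul_le_mul_of_nonneg_left _ e7
          linarith
  rw [abs_le] at hc ⊢
  constructor
  · nlinarith
  · nlinarith

end Pool.Agent.TH345.GBM
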